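import Pool.Agent.H630R2.LR.Defs

set_option autoImplicit false

namespace Pool.Agent.H630R2.LR.DTREE

open Finset Pool.Agent.H630R2.LR

set_option linter.unusedSectionVars false

variable {I : Type*} [DecidableEq I] {Ω : I → Type*}

/-- integer-valued version of `g` -/
def gi (g : (∀ i, Ω i) → Bool) (x : ∀ i, Ω i) : ℤ := if g x then 1 else 0

theorem gi_inj {g : (∀ i, Ω i) → Bool} {x y : ∀ i, Ω i} (h : gi g x = gi g y) : g x = g y := by
  unfold gi at h
  cases hx : g x <;> cases hy : g y <;> simp [hx, hy] at h ⊢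

theorem diff_eq (g : (∀ i, Ω i) → Bool) (S : Finset I) (u v : ∀ i, Ω i) :
    diff g S u v = ∑ T ∈ S.powerset, (-1 : ℤ) ^ (S \ T).card * gi g (T.piecewise v u) := rfl

theorem diff_empty (g : (∀ i, Ω i) → Bool) (u v : ∀ i, Ω i) : diff g ∅ u v = gi g u := by
  simp [diff_eq]

theorem piecewise_insert' {S : Finset I} {i : I} (hi : i ∉ S) (u v : ∀ i, Ω i) :
    (insert i S).piecewise v u = S.piecewise v (Function.update u i (v i)) := by
  ext j
  by_cases hj : j = i
  · subst hj; simp [hi]
  · simp [Finset.piecewise, hj]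

/-- (i) recursion -/
theorem diff_insert (g : (∀ i, Ω i) → Bool) {S : Finset I} {i : I} (hi : i ∉ S) (u v : ∀ i, Ω i) :
    diff g (insert i S) u v = diff g S (Function.update u i (v i)) v - diff g S u v := by
  rw [diff_eq, Finset.sum_powerset_insert hi, diff_eq, diff_eq, add_comm, sub_eq_add_neg,
    ← Finset.sum_neg_distrib]
  congr 1
  · apply Finset.sum_congr rfl
    intro T hT
    have hT' := Finset.mem_powerset.1 hT
    have hiT : i ∉ T := fun h => hi (hT' h)
    rw [piecewise_insert' hiT]
    congr 2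
    rw [Finset.insert_sdiff_insert, Finset.sdiff_insert_of_notMem hi]
  · apply Finset.sum_congr rfl
    intro T hT
    have hT' := Finset.mem_powerset.1 hT
    have hiT : i ∉ T := fun h => hi (hT' h)
    rw [Finset.insert_sdiff_of_notMem _ hiT, Finset.card_insert_of_notMem, pow_succ]
    · ring
    · intro h; exact hi (Finset.mem_sdiff.1 h).1

theorem diff_congr (g : (∀ i, Ω i) → Bool) {S : Finset I} (u : ∀ i, Ω i) {v v' : ∀ i, Ω i}
    (h : ∀ i ∈ S, v i = v' i) : diff g S u v = diff g S u v' := by
  rw [diff_eq, diff_eq]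
  apply Finset.sum_congr rfl
  intro T hT
  have hT' := Finset.mem_powerset.1 hT
  congr 2
  ext j
  by_cases hj : j ∈ T
  · simp [hj, h j (hT' hj)]
  · simp [hj]

theorem diff_update (g : (∀ i, Ω i) → Bool) {k : ℕ} (hg : Vanish g k) {S : Finset I}
    (hS : S.card = k) {i : I} (hi : i ∉ S) (u v : ∀ i, Ω i) (a : Ω i) :
    diff g S (Function.update u i a) v = diff g S u v := by
  have h1 := diff_insert g hi u (Function.update v i a)
  rw [hg _ _ _ (by rw [Finset.card_insert_of_notMem hi]; omega)] at h1
  rw [Function.update_self] at h1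
  have h2 : ∀ w : ∀ i, Ω i, diff g S w (Function.update v i a) = diff g S w v := by
    intro w
    apply diff_congr
    intro j hj
    have : j ≠ i := fun h => hi (h ▸ hj)
    simp [this]
  rw [h2, h2] at h1
  linarith

theorem diff_base [Fintype I] (g : (∀ i, Ω i) → Bool) {k : ℕ} (hg : Vanish g k) {S : Finset I}
    (hS : S.card = k) (u u' v : ∀ i, Ω i) (h : ∀ i ∈ S, u i = u' i) :
    diff g S u' v = diff g S u v := by
  have key : ∀ R : Finset I, Disjoint R S → diff g S (R.piecewise u' u) v = diff g S u v := by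
    intro R
    induction R using Finset.induction_on with
    | empty => intro _; simp
    | insert i R hi ih =>
      intro hd
      rw [Finset.disjoint_insert_left] at hd
      rw [Finset.piecewise_insert, diff_update g hg hS hd.1, ih hd.2]
  have := key Sᶜ disjoint_compl_left
  rw [← this]
  congr 1
  ext j
  by_cases hj : j ∈ S
  · simp [hj, h j hj]
  · simp [hj]

theorem alt_sum_zero {S : Finset I} (hS : S.Nonempty) :
    ∑ T ∈ S.powerset, (-1 : ℤ) ^ (S \ T).card = 0 := by
  have h := Finset.sum_powerset_neg_one_pow_card_of_nonempty hS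
  have h2 : ∀ T ∈ S.powerset, (-1 : ℤ) ^ (S \ T).card = (-1) ^ S.card * (-1) ^ T.card := by
    intro T hT
    have hT' := Finset.mem_powerset.1 hT
    have hc : (S \ T).card + T.card = S.card := Finset.card_sdiff_add_card_eq_card hT'
    rw [← hc, pow_add, mul_assoc, ← mul_pow]
    simp
  rw [Finset.sum_congr rfl h2, ← Finset.mul_sum, h, mul_zero]

/-- (ii) a top set is sensitive at every base point. -/
theorem top_sens [Fintype I] (g : (∀ i, Ω i) → Bool) {k : ℕ} (hg : Vanish g k) {S : Finset I}
    (hS : S.card = k) (hk : 0 < k) {u v : ∀ i, Ω i} (huv : diff g S u v ≠ 0) (u0 : ∀ i, Ω i) :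
    ∃ w : ∀ i, Ω i, g (S.piecewise w u0) ≠ g u0 := by
  by_contra hcon
  push Not at hcon
  apply huv
  have h1 : diff g S (S.piecewise u u0) v = diff g S u v := by
    apply diff_base g hg hS
    intro i hi
    simp [hi]
  rw [← h1, diff_eq]
  have h2 : ∀ T ∈ S.powerset, (-1 : ℤ) ^ (S \ T).card * gi g (T.piecewise v (S.piecewise u u0))
      = (-1 : ℤ) ^ (S \ T).card * gi g u0 := by
    intro T hT
    have hT' := Finset.mem_powerset.1 hT
    congr 1
    have h3 : T.piecewise v (S.piecewise u u0) = S.piecewise (T.piecewise v u) u0 := by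
      ext j
      by_cases hj : j ∈ T
      · simp [hj, hT' hj]
      · by_cases hj2 : j ∈ S
        · simp [hj, hj2]
        · simp [hj, hj2]
    rw [h3]
    unfold gi
    rw [hcon]
  rw [Finset.sum_congr rfl h2, ← Finset.sum_mul, alt_sum_zero (Finset.card_pos.1 (hS ▸ hk)), zero_mul]

/-- (iii) Moebius inversion -/
theorem moebius (g : (∀ i, Ω i) → Bool) (A : Finset I) (u v : ∀ i, Ω i) :
    gi g (A.piecewise v u) = ∑ S ∈ A.powerset, diff g S u v := by
  induction A using Finset.induction_on generalizing u with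
  | empty => simp [diff_empty]
  | insert i A hi ih =>
    rw [Finset.sum_powerset_insert hi, piecewise_insert' hi, ih]
    rw [← Finset.sum_add_distrib]
    apply Finset.sum_congr rfl
    intro T hT
    have hT' := Finset.mem_powerset.1 hT
    have hiT : i ∉ T := fun h => hi (hT' h)
    rw [diff_insert g hiT]
    ring

theorem DT.mono' {g : (∀ i, Ω i) → Bool} {n m : ℕ} (h : DT g n) (hnm : n ≤ m) : DT g m := by
  induction h generalizing m with
  | const v n => exact DT.const v m
  | query g n i h ih =>
    obtain ⟨m', rfl⟩ : ∃ m', m = m' + 1 := ⟨m - 1, by omega⟩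
    exact DT.query g m' i (fun a => ih a (by omega))

theorem DT.of_isEmpty (he : IsEmpty (∀ i, Ω i)) (g : (∀ i, Ω i) → Bool) (n : ℕ) : DT g n := by
  have : g = fun _ => false := by
    funext x
    exact he.elim x
  rw [this]
  exact DT.const false n

theorem DT.queryAll (H : Finset I) (g : (∀ i, Ω i) → Bool) (n : ℕ)
    (h : ∀ a : ∀ i, Ω i, DT (fun x => g (H.piecewise a x)) n) : DT g (n + H.card) := by
  rcases isEmpty_or_nonempty (∀ i, Ω i) with he | hne
  · exact DT.of_isEmpty he g _
  obtain ⟨a0⟩ := hne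
  induction H using Finset.induction_on generalizing g with
  | empty => simpa using h a0
  | insert i H hi ih =>
    rw [Finset.card_insert_of_notMem hi, ← Nat.add_assoc]
    refine DT.query g _ i (fun a => ?_)
    apply ih
    intro b
    have := h (Function.update b i a)
    convert this using 3
    rw [Finset.piecewise_insert, Function.update_self]
    congr 1
    ext j
    by_cases hj : j ∈ H
    · have : j ≠ i := fun h => hi (h ▸ hj)
      simp [hj, this]
    · simp [hj]

/-- restriction lowers the degree -/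
theorem vanish_restrict (g : (∀ i, Ω i) → Bool) {k : ℕ} (hg : Vanish g (k + 1)) (H : Finset I)
    (hH : ∀ S : Finset I, S.card = k + 1 → (∃ u v, diff g S u v ≠ 0) → ¬ Disjoint S H)
    (a : ∀ i, Ω i) : Vanish (fun x => g (H.piecewise a x)) k := by
  intro S u v hS
  by_cases hd : Disjoint S H
  · have h1 : diff (fun x => g (H.piecewise a x)) S u v
        = diff g S (H.piecewise a u) (H.piecewise a v) := by
      rw [diff_eq, diff_eq]
      apply Finset.sum_congr rfl
      intro T _
      congr 1
      unfold gi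
      have : H.piecewise a (T.piecewise v u) = T.piecewise (H.piecewise a v) (H.piecewise a u) := by
        ext j
        by_cases hj : j ∈ H <;> by_cases hj2 : j ∈ T <;> simp [hj, hj2]
      simp only [this]
    rw [h1]
    rcases Nat.lt_or_ge (k + 1) S.card with h2 | h2
    · exact hg _ _ _ h2
    · by_contra hne
      exact hH S (by omega) ⟨_, _, hne⟩ hd
  · rw [Finset.not_disjoint_iff] at hd
    obtain ⟨i, hiS, hiH⟩ := hd
    obtain ⟨S', hiS', rfl⟩ : ∃ S', i ∉ S' ∧ insert i S' = S :=
      ⟨S.erase i, Finset.notMem_erase i S, Finset.insert_erase hiS⟩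
    rw [diff_insert _ hiS', sub_eq_zero, diff_eq, diff_eq]
    apply Finset.sum_congr rfl
    intro T _
    congr 1
    unfold gi
    have : H.piecewise a (T.piecewise v (Function.update u i (v i)))
        = H.piecewise a (T.piecewise v u) := by
      ext j
      by_cases hj : j ∈ H
      · simp [hj]
      · have : j ≠ i := fun h => hj (h ▸ hiH)
        by_cases hj2 : j ∈ T <;> simp [hj, hj2, this]
    simp only [this]

/-- The statement of `block_bound` (module M2) for a fixed ground type. -/
def BlockBound (J : Type*) [DecidableEq J] : Prop :=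
  ∀ {b k : ℕ} (c : Finset J → ℝ) (B : Fin b → Finset J)
    (_ : Pairwise fun i j => Disjoint (B i) (B j))
    (_ : ∀ S, k < S.card → c S = 0)
    (_ : ∀ Y : Finset (Fin b), ∑ S ∈ (Y.biUnion B).powerset, c S = 0 ∨
      ∑ S ∈ (Y.biUnion B).powerset, c S = 1)
    (_ : ∀ j, ∑ S ∈ (B j).powerset, c S ≠ c ∅), b ≤ k ^ 2

/-- A pairwise disjoint family of top sets has at most `k ^ 2` members. -/
theorem family_bound [Fintype I] (hbb : BlockBound I) (g : (∀ i, Ω i) → Bool) {k : ℕ}
    (hg : Vanish g k) (hk : 0 < k) (u0 : ∀ i, Ω i) {b : ℕ} (B : Fin b → Finset I)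
    (hB : Pairwise fun i j => Disjoint (B i) (B j))
    (htop : ∀ j, (B j).card = k ∧ ∃ u v, diff g (B j) u v ≠ 0) : b ≤ k ^ 2 := by
  classical
  have hw : ∀ j, ∃ w : ∀ i, Ω i, g ((B j).piecewise w u0) ≠ g u0 := by
    intro j
    obtain ⟨hc, u, v, huv⟩ := htop j
    exact top_sens g hg hc hk huv u0
  choose w hw using hw
  let v : ∀ i, Ω i := fun i => if h : ∃ j, i ∈ B j then w h.choose i else u0 i
  have hv : ∀ j, ∀ i ∈ B j, v i = w j i := by
    intro j i hi
    have h : ∃ j, i ∈ B j := ⟨j, hi⟩
    have h2 : h.choose = j := by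
      by_contra hne
      exact Finset.disjoint_left.1 (hB hne) h.choose_spec hi
    simp only [v, dif_pos h, h2]
  have hsum : ∀ A : Finset I, ∑ S ∈ A.powerset, ((diff g S u0 v : ℤ) : ℝ)
      = ((gi g (A.piecewise v u0) : ℤ) : ℝ) := by
    intro A
    rw [moebius, Int.cast_sum]
  have h01 : ∀ x : ∀ i, Ω i, ((gi g x : ℤ) : ℝ) = 0 ∨ ((gi g x : ℤ) : ℝ) = 1 := by
    intro x
    unfold gi
    cases g x <;> simp
  refine hbb (fun S => ((diff g S u0 v : ℤ) : ℝ)) B hB ?_ ?_ ?_
  · intro S hS
    simp only [hg S u0 v hS, Int.cast_zero]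
  · intro Y
    rw [hsum]
    exact h01 _
  · intro j h
    rw [hsum, diff_empty] at h
    apply hw j
    have h2 := gi_inj (Int.cast_injective h)
    rw [← h2]
    congr 1
    ext i
    by_cases hi : i ∈ B j
    · simp [hi, hv j i hi]
    · simp [hi]

theorem hitting [Fintype I] (hbb : BlockBound I) (g : (∀ i, Ω i) → Bool) {k : ℕ}
    (hg : Vanish g k) (hk : 0 < k) (u0 : ∀ i, Ω i) :
    ∃ H : Finset I, H.card ≤ k ^ 3 ∧
      ∀ S : Finset I, S.card = k → (∃ u v, diff g S u v ≠ 0) → ¬ Disjoint S H := by
  classical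
  let top : Finset I → Prop := fun S => S.card = k ∧ ∃ u v, diff g S u v ≠ 0
  let fam : Finset (Finset (Finset I)) := Finset.univ.filter fun 𝓑 =>
    (∀ S ∈ 𝓑, top S) ∧ ∀ S ∈ 𝓑, ∀ S' ∈ 𝓑, S ≠ S' → Disjoint S S'
  have hne : fam.Nonempty := ⟨∅, by simp [fam]⟩
  obtain ⟨𝓑, h𝓑, hmax⟩ := Finset.exists_max_image fam Finset.card hne
  simp only [fam, Finset.mem_filter, Finset.mem_univ, true_and] at h𝓑 hmax
  have hcard : 𝓑.card ≤ k ^ 2 := by
    refine family_bound hbb g hg hk u0 (b := 𝓑.card) (fun j => (𝓑.equivFin.symm j : Finset I)) ?_ ?_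
    · intro i j hij
      apply h𝓑.2 _ (𝓑.equivFin.symm i).2 _ (𝓑.equivFin.symm j).2
      intro h
      exact hij (𝓑.equivFin.symm.injective (Subtype.ext h))
    · intro j
      exact h𝓑.1 _ (𝓑.equivFin.symm j).2
  refine ⟨𝓑.biUnion id, ?_, ?_⟩
  · calc (𝓑.biUnion id).card ≤ ∑ S ∈ 𝓑, (id S).card := Finset.card_biUnion_le
      _ = ∑ S ∈ 𝓑, k := Finset.sum_congr rfl fun S hS => (h𝓑.1 S hS).1
      _ = 𝓑.card * k := by rw [Finset.sum_const, smul_eq_mul]
      _ ≤ k ^ 2 * k := Nat.mul_le_mul_right _ hcard
      _ = k ^ 3 := by ring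
  · intro S hS hS2 hd
    have hdis : ∀ T ∈ 𝓑, Disjoint S T := by
      intro T hT
      exact Finset.disjoint_of_subset_right (Finset.subset_biUnion_of_mem id hT) hd
    have hSn : S ∉ 𝓑 := by
      intro h
      have := hdis S h
      rw [disjoint_self] at this
      rw [this] at hS
      simp at hS
      omega
    have := hmax (insert S 𝓑) ?_
    · rw [Finset.card_insert_of_notMem hSn] at this
      omega
    · constructor
      · intro T hT
        rcases Finset.mem_insert.1 hT with rfl | hT
        · exact ⟨hS, hS2⟩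
        · exact h𝓑.1 T hT
      · intro T hT T' hT' hne
        rcases Finset.mem_insert.1 hT with h1 | h1
        · rcases Finset.mem_insert.1 hT' with h2 | h2
          · exact absurd (h1.trans h2.symm) hne
          · rw [h1]; exact hdis _ h2
        · rcases Finset.mem_insert.1 hT' with h2 | h2
          · rw [h2]; exact (hdis _ h1).symm
          · exact h𝓑.2 _ h1 _ h2 hne

theorem dt_of_vanish_aux [Fintype I] (hbb : BlockBound I)
    (g : (∀ i, Ω i) → Bool) (k : ℕ) (h : Vanish g k) :
    DT g (∑ j ∈ range (k + 1), j ^ 3) := by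
  induction k generalizing g with
  | zero =>
    rcases isEmpty_or_nonempty (∀ i, Ω i) with he | hne
    · exact DT.of_isEmpty he g _
    obtain ⟨u0⟩ := hne
    have hconst : g = fun _ => g u0 := by
      funext x
      have h1 := moebius g Finset.univ u0 x
      rw [Finset.sum_eq_single ∅] at h1
      · rw [diff_empty] at h1
        have h2 : (Finset.univ : Finset I).piecewise x u0 = x := by
          ext j; simp
        rw [h2] at h1
        exact gi_inj h1
      · intro S _ hS
        apply h
        exact Finset.card_pos.2 (Finset.nonempty_iff_ne_empty.2 hS)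
      · intro hcon
        simp at hcon
    rw [hconst]
    exact DT.const _ _
  | succ k ih =>
    rcases isEmpty_or_nonempty (∀ i, Ω i) with he | hne
    · exact DT.of_isEmpty he g _
    obtain ⟨u0⟩ := hne
    obtain ⟨H, hH1, hH2⟩ := hitting hbb g h (Nat.succ_pos k) u0
    have h1 : DT g (∑ j ∈ range (k + 1), j ^ 3 + H.card) := by
      apply DT.queryAll
      intro a
      exact ih _ (vanish_restrict g h H hH2 a)
    refine DT.mono' h1 ?_
    rw [Finset.sum_range_succ _ (k + 1)]
    omega

end Pool.Agent.H630R2.LR.DTREE
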